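import Pool.Agent.Helper70.DK.Defs2

/-! (DSUB): near coincidences of projected points have their directions in one subspace. -/

namespace Pool.Agent.Helper70.DK

open Finset

/-- difference of two products -/
theorem dsub_prod_sub {ι : Type} (s : Finset ι) (a b : ι → ℝ) (X d : ℝ) (hX : 0 ≤ X) (hd : 0 ≤ d)
    (ha : ∀ i ∈ s, |a i| ≤ X) (hb : ∀ i ∈ s, |b i| ≤ X) (hab : ∀ i ∈ s, |a i - b i| ≤ d) :
    X * |∏ i ∈ s, a i - ∏ i ∈ s, b i| ≤ s.card * X ^ s.card * d := by
  classical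
  induction s using Finset.induction_on with
  | empty => simp
  | insert i s hi ih =>
    rw [Finset.prod_insert hi, Finset.prod_insert hi, Finset.card_insert_of_notMem hi]
    have ih' := ih (fun j hj => ha j (Finset.mem_insert_of_mem hj))
      (fun j hj => hb j (Finset.mem_insert_of_mem hj)) (fun j hj => hab j (Finset.mem_insert_of_mem hj))
    have h1 : |∏ j ∈ s, a j| ≤ X ^ s.card := by
      rw [Finset.abs_prod]
      calc ∏ j ∈ s, |a j| ≤ ∏ _j ∈ s, X := Finset.prod_le_prod (fun j _ => abs_nonneg _)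
            (fun j hj => ha j (Finset.mem_insert_of_mem hj))
        _ = X ^ s.card := by rw [Finset.prod_const]
    have h2 : |a i - b i| ≤ d := hab i (Finset.mem_insert_self _ _)
    have h3 : |b i| ≤ X := hb i (Finset.mem_insert_self _ _)
    have e : a i * ∏ j ∈ s, a j - b i * ∏ j ∈ s, b j =
        (a i - b i) * ∏ j ∈ s, a j + b i * (∏ j ∈ s, a j - ∏ j ∈ s, b j) := by ring
    have h4 : |a i * ∏ j ∈ s, a j - b i * ∏ j ∈ s, b j| ≤
        d * X ^ s.card + X * |∏ j ∈ s, a j - ∏ j ∈ s, b j| := by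
      rw [e]
      refine (abs_add_le _ _).trans ?_
      rw [abs_mul, abs_mul]
      exact add_le_add (mul_le_mul h2 h1 (abs_nonneg _) hd)
        (mul_le_mul_of_nonneg_right h3 (abs_nonneg _))
    calc X * |a i * ∏ j ∈ s, a j - b i * ∏ j ∈ s, b j|
        ≤ X * (d * X ^ s.card + X * |∏ j ∈ s, a j - ∏ j ∈ s, b j|) :=
          mul_le_mul_of_nonneg_left h4 hX
      _ ≤ X * (d * X ^ s.card + s.card * X ^ s.card * d) :=
          mul_le_mul_of_nonneg_left (add_le_add le_rfl ih') hX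
      _ = ((s.card + 1 : ℕ) : ℝ) * X ^ (s.card + 1) * d := by push_cast; ring

/-- difference of two determinants -/
theorem dsub_det_sub {r : ℕ} (W N : Matrix (Fin r) (Fin r) ℝ) (X d : ℝ) (hX : 0 ≤ X) (hd : 0 ≤ d)
    (hW : ∀ x y, |W x y| ≤ X) (hN : ∀ x y, |N x y| ≤ X) (hWN : ∀ x y, |W x y - N x y| ≤ d) :
    X * |W.det - N.det| ≤ r.factorial * (r * X ^ r * d) := by
  rw [Matrix.det_apply, Matrix.det_apply, ← Finset.sum_sub_distrib]
  have h1 : |∑ τ : Equiv.Perm (Fin r), (Equiv.Perm.sign τ • ∏ i, W (τ i) i -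
      Equiv.Perm.sign τ • ∏ i, N (τ i) i)| ≤
      ∑ τ : Equiv.Perm (Fin r), |∏ i, W (τ i) i - ∏ i, N (τ i) i| := by
    refine (Finset.abs_sum_le_sum_abs _ _).trans (Finset.sum_le_sum fun τ _ => ?_)
    rw [← smul_sub]
    rcases Int.units_eq_one_or (Equiv.Perm.sign τ) with h | h
    · rw [h, one_smul]
    · rw [h, Units.smul_def]
      simp [abs_sub_comm]
  calc X * |∑ τ : Equiv.Perm (Fin r), (Equiv.Perm.sign τ • ∏ i, W (τ i) i -
      Equiv.Perm.sign τ • ∏ i, N (τ i) i)|
      ≤ X * ∑ τ : Equiv.Perm (Fin r), |∏ i, W (τ i) i - ∏ i, N (τ i) i| :=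
        mul_le_mul_of_nonneg_left h1 hX
    _ = ∑ τ : Equiv.Perm (Fin r), X * |∏ i, W (τ i) i - ∏ i, N (τ i) i| := by rw [Finset.mul_sum]
    _ ≤ ∑ _τ : Equiv.Perm (Fin r), (r * X ^ r * d) := by
        refine Finset.sum_le_sum fun τ _ => ?_
        have := dsub_prod_sub (Finset.univ : Finset (Fin r)) (fun i => W (τ i) i) (fun i => N (τ i) i) X d
          hX hd (fun i _ => hW _ _) (fun i _ => hN _ _) (fun i _ => hWN _ _)
        simpa using this
    _ = r.factorial * (r * X ^ r * d) := by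
        rw [Finset.sum_const, Finset.card_univ, Fintype.card_perm, Fintype.card_fin, nsmul_eq_mul]

/-- frames have full rank -/
theorem dsub_rank_frame {k m : ℕ} (π : Matrix (Fin k) (Fin m) ℝ) (h : Frame π) : π.rank = k := by
  have h1 : (π * π.transpose).rank ≤ π.rank := Matrix.rank_mul_le_left _ _
  unfold Frame at h
  rw [h, Matrix.rank_one, Fintype.card_fin] at h1
  have h2 : π.rank ≤ Fintype.card (Fin k) := Matrix.rank_le_card_height _
  rw [Fintype.card_fin] at h2
  omega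

/-- a submatrix on columns of a matrix in the kernel of a frame has zero determinant -/
theorem dsub_det_zero {k m r : ℕ} (π : Matrix (Fin k) (Fin m) ℝ) (h : Frame π) (hr : m < r + k)
    (N : Matrix (Fin r) (Fin m) ℝ) (hN : ∀ x, π.mulVec (N x) = 0) (s : Fin r → Fin m) :
    (Matrix.of fun x y : Fin r => N x (s y)).det = 0 := by
  by_contra hne
  have h0 : π * N.transpose = 0 := by
    ext a b
    have := congrFun (hN b) a
    simpa [Matrix.mul_apply, Matrix.mulVec, dotProduct] using this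
  have h1 := Matrix.rank_add_rank_le_card_of_mul_eq_zero h0
  rw [dsub_rank_frame π h, Matrix.rank_transpose, Fintype.card_fin] at h1
  have h2 : r ≤ N.rank := by
    have h3 : LinearIndependent ℝ (Matrix.of fun x y : Fin r => N x (s y)).row :=
      Matrix.linearIndependent_rows_iff_isUnit.2
        ((Matrix.isUnit_iff_isUnit_det _).2 (isUnit_iff_ne_zero.2 hne))
    have h4 : LinearIndependent ℝ N.row := by
      have : (Matrix.of fun x y : Fin r => N x (s y)).row =
          (LinearMap.funLeft ℝ ℝ s) ∘ N.row := by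
        ext x y
        rfl
      rw [this] at h3
      exact LinearIndependent.of_comp _ h3
    rw [h4.rank_matrix, Fintype.card_fin]
  omega

/-- a nonzero minor of linearly independent rows -/
theorem dsub_minor {m r : ℕ} (β : Matrix (Fin r) (Fin m) ℝ) (h : LinearIndependent ℝ β.row) :
    ∃ s : Fin r → Fin m, (Matrix.of fun x y : Fin r => β x (s y)).det ≠ 0 := by
  have h1 : β.rank = r := by rw [h.rank_matrix, Fintype.card_fin]
  rw [Matrix.rank_eq_finrank_span_cols] at h1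
  obtain ⟨f, hf, -, hli⟩ := Submodule.exists_fun_fin_finrank_span_eq ℝ (Set.range β.col)
  have h2 : LinearIndependent ℝ (f ∘ Fin.cast h1.symm) :=
    hli.comp _ (Fin.cast_injective _)
  choose s hs using fun i => hf i
  refine ⟨fun y => s (Fin.cast h1.symm y), ?_⟩
  have h3 : (Matrix.of fun x y : Fin r => β x (s (Fin.cast h1.symm y))).col = f ∘ Fin.cast h1.symm := by
    ext y x
    have := congrFun (hs (Fin.cast h1.symm y)) x
    simpa using this
  have h4 : IsUnit (Matrix.of fun x y : Fin r => β x (s (Fin.cast h1.symm y))) := by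
    rw [← Matrix.linearIndependent_cols_iff_isUnit, h3]
    exact h2
  exact isUnit_iff_ne_zero.1 ((Matrix.isUnit_iff_isUnit_det _).1 h4)

/-- (DSUB) -/
theorem st_DSUB (hFRM : ST_FRM) (hPB : ST_PB) : ST_DSUB := by
  intro m B C M R hm hB hR hM
  set K : ℝ := 2 * (R + B) + m + 1 with hK
  have hBR : (2 : ℝ) ≤ B := by exact_mod_cast hB
  have hK1 : 1 ≤ K := by
    have : (0 : ℝ) ≤ m := Nat.cast_nonneg _
    rw [hK]; linarith
  set cst : ℝ := m.factorial * (m * (K ^ m * m)) with hcst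
  refine ⟨⌈cst⌉₊ + 1, ?_⟩
  intro ι _ σ t i n k π hok ht0 ht1 hn hdio hπ
  have hkm : k ≤ m := hFRM.2.2.2.2.2.2 k m π hπ
  set S : Set (Fin m → ℝ) := {b | ∃ u v : Fin n → ι,
    (∀ x, |π.mulVec (σ.P B t i n u) x - π.mulVec (σ.P B t i n v) x| < ((B : ℝ) ^ ((M - 1) * n))⁻¹) ∧
    b = fun c => ((σ.D B i n u c - σ.D B i n v c : ℤ) : ℝ)} with hS
  refine ⟨Submodule.span ℝ S, ?_, fun u v huv => Submodule.subset_span ⟨u, v, huv, rfl⟩⟩
  by_contra hcon
  push Not at hcon
  have hle : Module.finrank ℝ (Submodule.span ℝ S) ≤ m := by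
    have := Submodule.finrank_le (Submodule.span ℝ S)
    simpa using this
  have hk1 : 1 ≤ k := by omega
  obtain ⟨r, hr⟩ : ∃ r, r + k = m + 1 := ⟨m + 1 - k, by omega⟩
  have hr1 : 1 ≤ r := by omega
  have hrm : r ≤ m := by omega
  have hrf : r ≤ Module.finrank ℝ (Submodule.span ℝ S) := by omega
  obtain ⟨f, hf, -, hli⟩ := Submodule.exists_fun_fin_finrank_span_eq ℝ S
  have hli2 : LinearIndependent ℝ (f ∘ Fin.castLE hrf) := hli.comp _ (Fin.castLE_injective _)
  have hf2 : ∀ x : Fin r, (f ∘ Fin.castLE hrf) x ∈ S := fun x => hf _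
  choose u v hnear hbeta using hf2
  set β : Matrix (Fin r) (Fin m) ℝ := Matrix.of (f ∘ Fin.castLE hrf) with hβ
  have hβli : LinearIndependent ℝ β.row := hli2
  obtain ⟨s, hs⟩ := dsub_minor β hβli
  have hdet : (Matrix.of fun x y : Fin r => σ.D B i n (u x) (s y) - σ.D B i n (v x) (s y)).det ≠ 0 := by
    intro h0
    apply hs
    have e1 : (Matrix.of fun x y : Fin r => β x (s y)) =
        (Int.castRingHom ℝ).mapMatrix
          (Matrix.of fun x y : Fin r => σ.D B i n (u x) (s y) - σ.D B i n (v x) (s y)) := by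
      ext x y
      have := congrFun (hbeta x) (s y)
      simp only [hβ, Matrix.of_apply, RingHom.mapMatrix_apply, Matrix.map_apply, Int.coe_castRingHom]
      exact this
    rw [e1, ← RingHom.map_det, h0, map_zero]
  have hD := hdio r hr1 hrm u v s hdet
  obtain ⟨hPB1, hPB2, hPB3, hPB4, hPB5⟩ := hPB m B R t ι σ hB hR ht0 ht1 hok
  -- the matrices
  set w : Fin r → Fin m → ℝ := fun x c => σ.P B t i n (u x) c - σ.P B t i n (v x) c with hw
  set E : Fin r → Fin m → ℝ := fun x => π.transpose.mulVec (π.mulVec (w x)) with hE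
  have hBn : (1 : ℝ) ≤ (B : ℝ) ^ n := one_le_pow₀ (by linarith)
  have hwb : ∀ x c, |w x c| ≤ 2 * (R + B) * (B : ℝ) ^ n := by
    intro x c
    have h1 := hPB2 i n (u x) c
    have h2 := hPB2 i n (v x) c
    have h3 : |w x c| ≤ |σ.P B t i n (u x) c| + |σ.P B t i n (v x) c| := abs_sub _ _
    linarith
  have hinv0 : (0 : ℝ) < ((B : ℝ) ^ ((M - 1) * n))⁻¹ := by positivity
  have hinv1 : ((B : ℝ) ^ ((M - 1) * n))⁻¹ ≤ 1 := by
    apply inv_le_one_of_one_le₀
    exact one_le_pow₀ (by linarith)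
  have hEb : ∀ x c, |E x c| ≤ m * ((B : ℝ) ^ ((M - 1) * n))⁻¹ := by
    intro x c
    have h1 : ∀ z, |π.mulVec (w x) z| ≤ ((B : ℝ) ^ ((M - 1) * n))⁻¹ := by
      intro z
      have h2 := hnear x z
      have h3 : π.mulVec (w x) = π.mulVec (σ.P B t i n (u x)) - π.mulVec (σ.P B t i n (v x)) := by
        rw [← Matrix.mulVec_sub]
        rfl
      rw [h3, Pi.sub_apply]
      exact h2.le
    have h4 : E x c = ∑ z, π z c * π.mulVec (w x) z := by
      simp only [hE, Matrix.mulVec, dotProduct, Matrix.transpose_apply]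
    rw [h4]
    calc |∑ z, π z c * π.mulVec (w x) z| ≤ ∑ z, |π z c * π.mulVec (w x) z| :=
          Finset.abs_sum_le_sum_abs _ _
      _ ≤ ∑ _z : Fin k, ((B : ℝ) ^ ((M - 1) * n))⁻¹ := by
          refine Finset.sum_le_sum fun z _ => ?_
          rw [abs_mul]
          calc |π z c| * |π.mulVec (w x) z| ≤ 1 * ((B : ℝ) ^ ((M - 1) * n))⁻¹ :=
                mul_le_mul (hFRM.2.1 k m π hπ z c) (h1 z) (abs_nonneg _) zero_le_one
            _ = ((B : ℝ) ^ ((M - 1) * n))⁻¹ := one_mul _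
      _ = k * ((B : ℝ) ^ ((M - 1) * n))⁻¹ := by
          rw [Finset.sum_const, Finset.card_univ, Fintype.card_fin, nsmul_eq_mul]
      _ ≤ m * ((B : ℝ) ^ ((M - 1) * n))⁻¹ := by
          apply mul_le_mul_of_nonneg_right _ hinv0.le
          exact_mod_cast hkm
  have hEb1 : ∀ x c, |E x c| ≤ m := by
    intro x c
    refine (hEb x c).trans ?_
    calc (m : ℝ) * ((B : ℝ) ^ ((M - 1) * n))⁻¹ ≤ m * 1 :=
          mul_le_mul_of_nonneg_left hinv1 (Nat.cast_nonneg _)
      _ = m := mul_one _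
  set N : Matrix (Fin r) (Fin m) ℝ := Matrix.of fun x c => w x c - E x c with hN
  have hNker : ∀ x, π.mulVec (N x) = 0 := by
    intro x
    have h1 : N x = w x - E x := rfl
    have h2 : π * π.transpose = 1 := hπ
    rw [h1, Matrix.mulVec_sub, hE]
    simp only [Matrix.mulVec_mulVec]
    rw [← Matrix.mulVec_mulVec, ← Matrix.mulVec_mulVec, Matrix.mulVec_mulVec _ π π.transpose, h2,
      Matrix.one_mulVec, sub_self]
  have hdetN := dsub_det_zero π hπ (by omega : m < r + k) N hNker s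
  set X : ℝ := K * (B : ℝ) ^ n with hX
  have hX0 : 0 < X := by positivity
  have hm0 : (0 : ℝ) ≤ m := Nat.cast_nonneg _
  have hXm : 2 * (R + B) * (B : ℝ) ^ n + m ≤ X := by
    rw [hX, hK]
    nlinarith [mul_le_mul_of_nonneg_left hBn hm0]
  have hfin := dsub_det_sub (Matrix.of fun x y : Fin r => w x (s y))
    (Matrix.of fun x y : Fin r => N x (s y)) X (m * ((B : ℝ) ^ ((M - 1) * n))⁻¹) hX0.le
    (by positivity)
    (fun x y => by
      have := hwb x (s y)
      simp only [Matrix.of_apply]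
      linarith)
    (fun x y => by
      have h1 := hwb x (s y)
      have h2 := hEb1 x (s y)
      have h3 : |w x (s y) - E x (s y)| ≤ |w x (s y)| + |E x (s y)| := abs_sub _ _
      simp only [hN, Matrix.of_apply]
      linarith)
    (fun x y => by
      have h1 := hEb x (s y)
      simp only [hN, Matrix.of_apply, sub_sub_cancel]
      exact h1)
  rw [hdetN, sub_zero] at hfin
  -- final contradiction
  have hX1 : 1 ≤ X := by
    rw [hX]
    exact one_le_mul_of_one_le_of_one_le hK1 hBn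
  have hr2 : (r.factorial : ℝ) * (r * X ^ r * (m * ((B : ℝ) ^ ((M - 1) * n))⁻¹)) ≤
      m.factorial * (m * X ^ m * (m * ((B : ℝ) ^ ((M - 1) * n))⁻¹)) := by
    have a1 : (r.factorial : ℝ) ≤ m.factorial := by exact_mod_cast Nat.factorial_le hrm
    have a2 : (r : ℝ) ≤ m := by exact_mod_cast hrm
    have a3 : X ^ r ≤ X ^ m := pow_le_pow_right₀ hX1 hrm
    gcongr
  have h5 : X * ((B : ℝ) ^ (C * n))⁻¹ ≤ m.factorial * (m * X ^ m * (m * ((B : ℝ) ^ ((M - 1) * n))⁻¹)) :=
    (mul_le_mul_of_nonneg_left hD hX0.le).trans (hfin.trans hr2)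
  obtain ⟨q, hq⟩ : ∃ q, M - 1 = C + m + q := ⟨M - 1 - C - m, by omega⟩
  have hBpos : (0 : ℝ) < B := by linarith
  have e2 : (B : ℝ) ^ ((M - 1) * n) = (B : ℝ) ^ (C * n) * ((B : ℝ) ^ n) ^ m * (B : ℝ) ^ (q * n) := by
    rw [hq, ← pow_mul, ← pow_add, ← pow_add]
    congr 1
    ring
  have h6 : X * (((B : ℝ) ^ n) ^ m * (B : ℝ) ^ (q * n)) ≤ m.factorial * (m * X ^ m * m) := by
    have h7 := mul_le_mul_of_nonneg_right h5 (by positivity : 0 ≤ (B : ℝ) ^ ((M - 1) * n))
    have e3 : m.factorial * (m * X ^ m * (m * ((B : ℝ) ^ ((M - 1) * n))⁻¹)) * (B : ℝ) ^ ((M - 1) * n) =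
        m.factorial * (m * X ^ m * m) := by
      field_simp
    have e4 : X * ((B : ℝ) ^ (C * n))⁻¹ * (B : ℝ) ^ ((M - 1) * n) =
        X * (((B : ℝ) ^ n) ^ m * (B : ℝ) ^ (q * n)) := by
      rw [e2]
      field_simp
    rw [e3, e4] at h7
    exact h7
  have h8 : (B : ℝ) ^ n * ((B : ℝ) ^ n) ^ m ≤ cst * ((B : ℝ) ^ n) ^ m := by
    have b1 : (1 : ℝ) ≤ (B : ℝ) ^ (q * n) := one_le_pow₀ (by linarith)
    have b2 : (B : ℝ) ^ n ≤ X := by
      rw [hX]
      nlinarith
    calc (B : ℝ) ^ n * ((B : ℝ) ^ n) ^ m ≤ X * (((B : ℝ) ^ n) ^ m * (B : ℝ) ^ (q * n)) := by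
          apply mul_le_mul b2 _ (by positivity) hX0.le
          exact le_mul_of_one_le_right (by positivity) b1
      _ ≤ m.factorial * (m * X ^ m * m) := h6
      _ = cst * ((B : ℝ) ^ n) ^ m := by
          rw [hcst, hX, mul_pow]
          ring
  have h9 : (B : ℝ) ^ n ≤ cst := le_of_mul_le_mul_right h8 (by positivity)
  have h10 : (n : ℝ) < (B : ℝ) ^ n := by
    have : n < B ^ n := Nat.lt_pow_self (by omega)
    exact_mod_cast this
  have h11 : cst ≤ ⌈cst⌉₊ := Nat.le_ceil _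
  have h12 : ((⌈cst⌉₊ + 1 : ℕ) : ℝ) ≤ n := by exact_mod_cast hn
  push_cast at h12
  linarith

end Pool.Agent.Helper70.DK
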